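import Pool.Agent.Results.MP_2c1b2b_gt.LinearSegments

/-!
# Linear size sparsification of zonotopes, unconditional form

Composition of the steps of the starting result `MP_2c1b2b_gt/LinearSegments`.
-/

set_option autoImplicit false

namespace Pool.Agent.W567.ZonIter

open Pool.Agent.H902R3.ZA Pool.Agent.H172R2.ZS

/-- For spanning vectors `u j` in `ℝⁿ` and `0 < ε < 1` there are at most `C n / ε ^ 2` vectors
`v k` with `| ∑ |⟪v k, x⟫| - ∑ |⟪u j, x⟫| | ≤ ε ∑ |⟪u j, x⟫|` for all `x`. -/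
theorem iter : S_ITER := by
  have hGAU : Pool.Agent.H172R2.ZS.S_GAU := GAU_ok (MAP_ok ONE_ok BAS_ok DET_ok)
  have hHAM : Pool.Agent.H172R2.ZS.S_HAM := Pool.Agent.H172R2.GS.HAM_ok
  have hPLN : S_PLN := PLN_ok (PLA_ok LBM_ok)
  have hDOM : S_DOM := DOM_ok RES_ok
  have hSC : S_SC := SC_ok RES_ok (SEC_ok hPLN)
  have hLOW : S_LOW := LOW_ok hDOM hSC LAW_ok hGAU
  have hJEN : S_JEN := JEN_ok hPLN ROT_ok QJ_ok
  have hTWO : S_TWO := TWO_ok hLOW PHI_ok hJEN MEAN_ok (FIX_ok PHI_ok)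
  have hCOL : S_COL := COL_ok SHI_ok AVG_ok hHAM
  exact ITER_ok (STEP_ok (STEPL_ok hTWO hCOL) LEW_ok BAS_ok)

end Pool.Agent.W567.ZonIter
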